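import Pool.Agent.Results.MP_61161c_nt.DigitPermutations
import Pool.Agent.U837.CC.Cr

/-!
# Sums of two distinct and almost equal odd primes, for all even integers near concatenated polynomial values

For almost all `n ≤ x`, ALL the positive even integers `m` within `log ^ W x` of the integers whose digits in some base
`b ≤ log ^ W x` are those of `f_1(n)`, `f_2(n)`, ..., `f_r(n)` written one after the other, where `f_1, ..., f_r` are ANY integer
polynomials of distinct degrees between `1` and `D` with coefficients of absolute value at most `log ^ W x`, are sums of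
two distinct odd primes, even of two primes at a distance of at most `H`, for every `H` with `m / log ^ A m ≤ H ≤ m`, and
the number of these representations is the predicted one. For example (base ten) for almost all `n`: all even integers
near the integer with the digits of `n`, `n ^ 2` and `n ^ 3` one after the other. The members of the family for given
`b, f_1, ..., f_r` are thin sets: `x` integers of the size `x ^ (deg f_1 + ... + deg f_r)`.

Definitions used from `Pool.Agent.H560R3.GB` (starting files): `sing m`: the singular series
`2 C₂ ∏_{p ∣ m, p > 2} (p - 1) / (p - 2)`, where `C₂ = ∏_{p > 2} (1 - 1 / (p - 1) ^ 2)`.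

Method: the integers with a given number of digits in every block are the values `∑_i b ^ (e_i) f_i(n)` of a polynomial
with huge coefficients. An inverse theorem for Weyl sums with ALL the coefficients (`Pool.Agent.U837.CC.IWF_all`, new, deduced
from the one for the leading coefficient in `H373R2/NB/Weyl`) shows, one block after the other, that a frequency `β` with
a large exponential sum is such that all the `b ^ (e_i) β` are close to rational numbers with one small denominator (here the
degrees have to be distinct); only a few frequencies have this property (`Pool.Agent.U837.CC.count_vec`), so that the family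
has a minimal additive energy of high order and the theorem of the starting files on thin families of this kind
(`R459.near_even`) applies. The number of the choices of the digit lengths, of the base and of the polynomials is only a
power of the logarithm.
-/

set_option autoImplicit false

namespace Pool.Agent.Results.MP_61161c_nt.Concatenations

open Finset Polynomial
open Pool.Agent.H560R3.GB (sing)

/-- The number of the `p` such that `p` and `p' = m - p` are odd primes, `p < p'` and `p' - p ≤ H`. -/
def N (m H : ℕ) : ℕ :=
  ((range m).filter (fun p => p.Prime ∧ p ≠ 2 ∧ (m - p).Prime ∧ m - p ≠ 2 ∧ p < m - p ∧ m - p ≤ p + H)).card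

/-- For every `H` with `m / log ^ A m ≤ H ≤ m` there are distinct odd primes `p < p'` with `p + p' = m` and
`p' - p ≤ H`, and the number of these pairs is `sing m * H / (2 log ^ 2 m)` up to a relative error of at
most `ε`. -/
def Holds (ε : ℝ) (A m : ℕ) : Prop :=
  ∀ H : ℕ, H ≤ m → (m : ℝ) / Real.log m ^ A ≤ H →
    (∃ p p' : ℕ, p.Prime ∧ p'.Prime ∧ p ≠ 2 ∧ p' ≠ 2 ∧ p < p' ∧ p + p' = m ∧ p' - p ≤ H) ∧
    |(N m H : ℝ) - sing m * H / (2 * Real.log m ^ 2)| ≤ ε * (sing m * H / (2 * Real.log m ^ 2))

lemma holds_of (A : ℕ) (ε : ℝ) (hε : 0 < ε) : ∃ m₀ : ℕ, ∀ m : ℕ, m₀ ≤ m → 2 ∣ m →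
    Pool.Agent.W93.PG.WinP (min ε (1 / 2) / 2) (A + 1) m → Holds ε A m := MP_61161c_nt.DigitPermutations.holds_of A ε hε

/-- The number whose digits in base `b`, read from the left to the right, are those of `f(n)`, `f ∈ F`, written one after
the other. -/
noncomputable def concat (b : ℕ) (F : List ℤ[X]) (n : ℕ) : ℕ :=
  Nat.ofDigits b ((F.reverse.map (fun f => Nat.digits b (f.eval (n : ℤ)).toNat)).flatten)

/-- The list `F` is not empty, the members of `F` have distinct degrees between `1` and `D`, coefficients of absolute value
at most `r`, and nonnegative values at `n`. -/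
def Small (F : List ℤ[X]) (D : ℕ) (r : ℝ) (n : ℕ) : Prop :=
  F ≠ [] ∧ (F.map natDegree).Nodup ∧
    ∀ f ∈ F, 1 ≤ f.natDegree ∧ f.natDegree ≤ D ∧ (∀ i, |((f.coeff i : ℤ) : ℝ)| ≤ r) ∧ 0 ≤ f.eval (n : ℤ)

open Classical in
/-- The number of the `n ≤ x` for which `Holds` fails for some even integer `m > 0` with `|m - concat b F n| ≤ log ^ W x`, some base
`b` with `2 ≤ b ≤ log ^ W x` and some `F` with `Small F D (log ^ W x) n`. -/
noncomputable def exceptions (D : ℕ) (ε : ℝ) (A W x : ℕ) : ℕ :=
  ((Icc 1 x).filter (fun n : ℕ => ∃ (b : ℕ) (F : List ℤ[X]), 2 ≤ b ∧ (b : ℝ) ≤ Real.log x ^ W ∧ Small F D (Real.log x ^ W) n ∧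
    ∃ m : ℕ, 0 < m ∧ Even m ∧ |(m : ℝ) - concat b F n| ≤ Real.log x ^ W ∧ ¬ Holds ε A m)).card

/-- Let `D`, `A`, `W`, `U` and `ε > 0` be fixed, and let `x` be large. For all but at most `x / log ^ U x` of the `n ≤ x`, for
ALL the bases `b ≤ log ^ W x` and ALL the lists `f_1, ..., f_r` of integer polynomials of distinct degrees between `1` and
`D` with coefficients of absolute value at most `log ^ W x` and with `f_i(n) ≥ 0`, ALL the even integers `m > 0` at a
distance of at most `log ^ W x` from the integer whose digits in base `b` are those of `f_1(n), ..., f_r(n)` written one after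
the other are sums of two distinct odd primes `p < p'`, even with `p' - p ≤ H` for every `H` with
`m / log ^ A m ≤ H ≤ m`, and the number of these representations is `sing m * H / (2 log ^ 2 m)` up to a relative error of
at most `ε`. -/
theorem result (D A W U : ℕ) (ε : ℝ) (hε : 0 < ε) :
    ∃ x₀ : ℕ, ∀ x : ℕ, x₀ ≤ x → (exceptions D ε A W x : ℝ) ≤ (x : ℝ) / Real.log x ^ U := by
  classical
  obtain ⟨m₀, hm₀⟩ := holds_of A ε hε
  obtain ⟨x₀, h0⟩ := Pool.Agent.U837.CC.concat_rev D (A + 1) W U m₀ (min ε (1 / 2) / 2)
    (div_pos (lt_min hε (by norm_num)) (by norm_num)) (Holds ε A) (fun m h1 h2 h3 => hm₀ m h1 h2 h3)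
  refine ⟨x₀, fun x hx => ?_⟩
  unfold exceptions
  refine h0 x hx _ ?_
  intro n hn
  rw [mem_filter] at hn
  obtain ⟨h1, b, F, h2, h3, h4, m, m1, m2, m3, m4⟩ := hn
  exact ⟨h1, b, F, h2, h3, h4, m, m1, m2, m3, m4⟩

end Pool.Agent.Results.MP_61161c_nt.Concatenations
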