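import Pool.Agent.U160.FD.GoldBlock

/-!
# Sums of two distinct and almost equal odd primes near all blocks of digits of almost every point of a measure with
# Fourier decay

Definitions used, in `Pool.Agent.U160.FD` and `Pool.Agent.H560R3.GB`:
* `FourierDecay μ`: the Fourier transform `μ^(t) = ∫ exp(i t x) dμ(x)` of `μ` is `O(t ^ (-β))` for some `β > 0`;
* `block b x i j`: the integer whose digits in base `b` are the digits of `x` at the places `i + 1, …, j` after the point,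
  that is, the residue of `⌊b ^ j x⌋` modulo `b ^ (j - i)`;
* `sing m`: the singular series `2 C₂ ∏_{p ∣ m, p > 2} (p - 1) / (p - 2)`, where `C₂ = ∏_{p > 2} (1 - 1 / (p - 1) ^ 2)`.

Method (`Pool.Agent.U160.FD`): for all `l ≥ 1` the signed sums of the numbers `{l x_i}` for `2 h` independent points `x_i` of
`μ` are in an interval of length `r` with probability `O(r)`, uniformly in `l` (Fejer kernel on the circle and the decay of
the Fourier transform); thus the weights `μ{x : ⌊M {l x}⌋ + s = a}` have minimal additive energy of order `h`, they are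
approximated by finite families (with multiplicities), and the theorem of the starting files on Goldbach pairs for
families of nearly minimal energy (`Pool.Agent.TH935.GF.fam_win`) bounds the measure of the exceptional points;
Borel-Cantelli over polynomially many parameters for every `j`.
-/

set_option autoImplicit false

namespace Pool.Agent.Results.MP_61161c_nt.DigitBlocks

open MeasureTheory Filter Finset Pool.Agent.H560R3.GB Pool.Agent.U160.FD

/-- The number of the `p` such that `p` and `p' = m - p` are odd primes, `p < p'` and `p' - p ≤ H`. -/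
def N (m H : ℕ) : ℕ :=
  ((range m).filter (fun p => p.Prime ∧ p ≠ 2 ∧ (m - p).Prime ∧ m - p ≠ 2 ∧ p < m - p ∧ m - p ≤ p + H)).card

/-- For every `H` with `m / log ^ A m ≤ H ≤ m` there are distinct odd primes `p < p'` with `p + p' = m` and
`p' - p ≤ H`, and the number of these pairs is `sing m * H / (2 log ^ 2 m)` up to a relative error of at
most `ε`. -/
def Holds (ε : ℝ) (A m : ℕ) : Prop :=
  ∀ H : ℕ, H ≤ m → (m : ℝ) / Real.log m ^ A ≤ H →
    (∃ p p' : ℕ, p.Prime ∧ p'.Prime ∧ p ≠ 2 ∧ p' ≠ 2 ∧ p < p' ∧ p + p' = m ∧ p' - p ≤ H) ∧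
    |(N m H : ℝ) - sing m * H / (2 * Real.log m ^ 2)| ≤ ε * (sing m * H / (2 * Real.log m ^ 2))

lemma N_eq (m H : ℕ) (hm : 2 ∣ m) (hm6 : 6 ≤ m) (hH : H ≤ m) :
    N m H = Pool.Agent.W93.PG.cnt m ((m - H + 1) / 2 - 1) (m / 2 - 1) := by
  unfold N Pool.Agent.W93.PG.cnt
  congr 1
  ext p
  rw [mem_filter, mem_filter, mem_range, mem_Ioc]
  constructor
  · rintro ⟨h1, h2, h3, h4, h5, h6, h7⟩
    have := h2.two_le
    exact ⟨by omega, h2, h4⟩
  · rintro ⟨⟨h1, h2⟩, h3, h4⟩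
    refine ⟨by omega, h3, ?_, h4, by omega, by omega, by omega⟩
    rintro rfl
    have h5 : 2 ∣ m - 2 := by omega
    have h6 := (Nat.prime_dvd_prime_iff_eq Nat.prime_two h4).1 h5
    omega

lemma holds_of (A : ℕ) (ε : ℝ) (hε : 0 < ε) : ∃ m₀ : ℕ, ∀ m : ℕ, m₀ ≤ m → 2 ∣ m →
    Pool.Agent.W93.PG.WinP (min ε (1 / 2) / 2) (A + 1) m → Holds ε A m := by
  obtain ⟨n1, h1⟩ := Pool.Agent.H373R2.T7.ev_L' 4
  obtain ⟨n2, h2⟩ := Pool.Agent.H373R2.T7.ev_log' (A + 1) 1
  obtain ⟨ε', hε'⟩ : ∃ ε', ε' = min ε (1 / 2) := ⟨_, rfl⟩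
  have he0 : 0 < ε' := by rw [hε']; exact lt_min hε (by norm_num)
  have he1 : ε' ≤ ε := by rw [hε']; exact min_le_left _ _
  have he2 : ε' ≤ 1 / 2 := by rw [hε']; exact min_le_right _ _
  obtain ⟨n3, hn3⟩ := exists_nat_ge ((4 / ε') ^ 2)
  rw [← hε']
  refine ⟨n1 + n2 + n3 + 6, fun m hm hm2 hwin H hH hHm => ?_⟩
  have a1 := h1 m (by omega)
  have a2 := h2 m (by omega)
  have hm4 : (6 : ℝ) ≤ m := by exact_mod_cast (by omega : 6 ≤ m)
  have hm0 : (0 : ℝ) < m := by linarith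
  rw [one_mul] at a2
  obtain ⟨M, hM⟩ : ∃ M, M = Real.log (m : ℝ) := ⟨_, rfl⟩
  have hs := Pool.Agent.W93.GB.one_le_sing m
  obtain ⟨S, hS⟩ : ∃ S, S = sing m := ⟨_, rfl⟩
  unfold Pool.Agent.W93.PG.WinP at hwin
  rw [← hM] at a1 a2 hwin hHm ⊢
  rw [← hS] at hs hwin ⊢
  have hM1 : 1 ≤ M := by linarith
  have hM0 : 0 < M := by linarith
  have hmm : √(m : ℝ) * √(m : ℝ) = m := Real.mul_self_sqrt hm0.le
  have hsm0 : 0 < √(m : ℝ) := Real.sqrt_pos.2 hm0
  have hsmH : √(m : ℝ) ≤ m / M ^ (A + 1) := by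
    rw [le_div_iff₀ (by positivity)]
    calc √(m : ℝ) * M ^ (A + 1) ≤ √(m : ℝ) * √(m : ℝ) := mul_le_mul_of_nonneg_left a2 hsm0.le
      _ = m := hmm
  have h4e : 4 / ε' ≤ √(m : ℝ) := by
    apply Real.le_sqrt_of_sq_le
    refine hn3.trans ?_
    exact_mod_cast (by omega : n3 ≤ m)
  have h8 : 8 ≤ √(m : ℝ) := by
    refine le_trans ?_ h4e
    rw [le_div_iff₀ he0]
    linarith
  have hA1 : (m : ℝ) / M ^ A = m / M ^ (A + 1) * M := by rw [pow_succ]; field_simp
  have hbig : 4 * (m / M ^ (A + 1)) ≤ H := by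
    refine le_trans ?_ hHm
    rw [hA1, mul_comm]
    exact mul_le_mul_of_nonneg_left a1 (by positivity)
  obtain ⟨y₁, hy₁⟩ : ∃ y₁, y₁ = (m - H + 1) / 2 - 1 := ⟨_, rfl⟩
  obtain ⟨y₂, hy₂⟩ : ∃ y₂, y₂ = m / 2 - 1 := ⟨_, rfl⟩
  have hHr : (32 : ℝ) ≤ H := by linarith
  have hH32 : 32 ≤ H := by exact_mod_cast hHr
  have hN := N_eq m H hm2 (by omega) hH
  rw [← hy₁, ← hy₂] at hN
  have hy12 : y₁ < y₂ := by omega
  have hd1 : (y₂ : ℝ) - y₁ ≤ H / 2 := by
    have : 2 * y₂ ≤ 2 * y₁ + H := by omega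
    have : (2 : ℝ) * y₂ ≤ 2 * y₁ + H := by exact_mod_cast this
    linarith
  have hd2 : (H : ℝ) / 2 - 1 ≤ (y₂ : ℝ) - y₁ := by
    have : 2 * y₁ + H ≤ 2 * y₂ + 2 := by omega
    have : (2 : ℝ) * y₁ + H ≤ 2 * y₂ + 2 := by exact_mod_cast this
    linarith
  have hw := hwin y₁ y₂ hy12 (by omega) (by linarith)
  rw [← hN] at hw
  obtain ⟨Δ, hΔ⟩ : ∃ Δ, Δ = (y₂ : ℝ) - y₁ := ⟨_, rfl⟩
  rw [← hΔ] at hw hd1 hd2
  have hSM : 0 < S / M ^ 2 := by positivity
  have e1 : S * Δ / M ^ 2 = S / M ^ 2 * Δ := by ring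
  have e2 : S * H / (2 * M ^ 2) = S / M ^ 2 * (H / 2) := by field_simp
  rw [e1] at hw
  rw [e2]
  obtain ⟨T, hT⟩ : ∃ T, T = S / M ^ 2 := ⟨_, rfl⟩
  rw [← hT] at hSM hw ⊢
  have h1H : 1 ≤ ε' / 2 * (H / 2) := by
    have : 4 / ε' ≤ H := by linarith
    rw [div_le_iff₀ he0] at this
    linarith
  have hmain : |(N m H : ℝ) - T * (H / 2)| ≤ ε' * (T * (H / 2)) := by
    have f1 : |(N m H : ℝ) - T * (H / 2)| ≤ |(N m H : ℝ) - T * Δ| + |T * Δ - T * (H / 2)| := abs_sub_le _ _ _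
    have f2 : |T * Δ - T * (H / 2)| ≤ T := by
      rw [← mul_sub, abs_mul, abs_of_pos hSM]
      apply mul_le_of_le_one_right hSM.le
      rw [abs_le]
      constructor <;> linarith
    have f3 : T ≤ T * (ε' / 2 * (H / 2)) := le_mul_of_one_le_right hSM.le h1H
    have f4 : ε' / 2 * (T * Δ) ≤ ε' / 2 * (T * (H / 2)) := by
      apply mul_le_mul_of_nonneg_left _ (by linarith)
      exact mul_le_mul_of_nonneg_left hd1 hSM.le
    linarith
  have hTH : 0 < T * (H / 2) := by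
    have : (0 : ℝ) < H := by linarith
    positivity
  refine ⟨?_, hmain.trans (mul_le_mul_of_nonneg_right he1 hTH.le)⟩
  have h7 : (0 : ℝ) < N m H := by
    rw [abs_le] at hmain
    nlinarith [hmain.1]
  have h8 : 0 < N m H := by exact_mod_cast h7
  unfold N at h8
  rw [card_pos] at h8
  obtain ⟨p, hp⟩ := h8
  rw [mem_filter, mem_range] at hp
  obtain ⟨q0, q1, q2, q3, q4, q5, q6⟩ := hp
  exact ⟨p, m - p, q1, q3, q2, q4, q5, by omega, by omega⟩

/-- Let `μ` be a probability measure on the line whose Fourier transform is `O(t ^ (-β))` for some `β > 0` (for example a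
measure on a set of arbitrarily small positive dimension).

(1) For `μ`-almost every `x`: for all bases `b ≥ 2`, all `η > 0`, `A`, `W` and `ε > 0` and all large `j`, ALL the blocks of at
least `j ^ η` digits of `x` in base `b` which end at the place `j` after the point have the following property: if `k` is
the number of the digits and `n < b ^ k` is the integer with these digits, then all even `m` with `|m - n| ≤ k ^ W` are sums
of two distinct odd primes `p < p'`, even with `p' - p ≤ H` for every `H` between `m / log ^ A m` and `m`, and the number of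
these pairs is `sing m * H / (2 log ^ 2 m)` up to a relative error of at most `ε`.

(2) More generally, for every `j` let `F j` be a set of at most `j ^ D` triples `(l, M, s)` of real numbers `l ≥ 1` and
`M ≥ exp (j ^ δ)` (with `δ > 0`) and integers `|s| ≤ B₀ M`. Then for `μ`-almost every `x`: for all `A`, `W`, `ε > 0` and all
large `j` the same holds for all `(l, M, s)` in `F j` and all even `m` with `|m - s - M {l x}| ≤ log ^ W M`, where `{y}` is
the fractional part of `y`. -/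
theorem result (μ : Measure ℝ) [IsProbabilityMeasure μ] (hμ : FourierDecay μ) :
    (∀ᵐ x ∂μ, ∀ b : ℕ, 2 ≤ b → ∀ (η : ℝ) (A W : ℕ) (ε : ℝ), 0 < η → 0 < ε → ∀ᶠ j : ℕ in atTop, ∀ k : ℕ, k ≤ j →
      (j : ℝ) ^ η ≤ k → ∀ m : ℕ, Even m → |(m : ℝ) - block b x (j - k) j| ≤ (k : ℝ) ^ W → Holds ε A m) ∧
    (∀ (F : ℕ → Finset (ℝ × ℝ × ℤ)) (δ : ℝ) (B₀ D : ℕ), 0 < δ →
      (∀ᶠ j : ℕ in atTop, ((F j).card : ℝ) ≤ (j : ℝ) ^ D ∧
        ∀ p ∈ F j, 1 ≤ p.1 ∧ Real.exp ((j : ℝ) ^ δ) ≤ p.2.1 ∧ |(p.2.2 : ℝ)| ≤ B₀ * p.2.1) →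
      ∀ᵐ x ∂μ, ∀ (A W : ℕ) (ε : ℝ), 0 < ε → ∀ᶠ j : ℕ in atTop, ∀ p ∈ F j, ∀ m : ℕ, Even m →
        |(m : ℝ) - p.2.2 - p.2.1 * Int.fract (p.1 * x)| ≤ Real.log p.2.1 ^ W → Holds ε A m) := by
  constructor
  · filter_upwards [gold_digits μ hμ] with x hx b hb η A W ε hη hε
    obtain ⟨m₀, h0⟩ := holds_of A ε hε
    exact hx b hb η hη (Holds ε A) (A + 1) W m₀ (min ε (1 / 2) / 2) (by positivity) h0
  · intro F δ B₀ D hδ hF
    filter_upwards [gold_block μ hμ F δ hδ B₀ D hF] with x hx A W ε hε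
    obtain ⟨m₀, h0⟩ := holds_of A ε hε
    exact hx (Holds ε A) (A + 1) W m₀ (min ε (1 / 2) / 2) (by positivity) h0

end Pool.Agent.Results.MP_61161c_nt.DigitBlocks
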