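import Pool.Agent.U847.BT
import Pool.Agent.N625.PT.F
import Pool.Agent.Results.MP_61161c_nt.DigitPermutations

/-!
# Sums of two distinct and almost equal odd primes: all the multiples of integers given by a context-free language

All the even multiples `h q`, `h ≤ k ^ J`, of all the integers `q` near `c + κ v`, for almost all the integers `v` whose `k`
digits form a correctly nested word (several kinds of brackets and neutral digits). Such a set can contain as few as `N ^ ε`
integers below `N`, and it is not automatic.

Definitions used (in `Pool.Agent.H560R3.GB`): `C₂`: the twin prime constant `∏_{p > 2} (1 - 1 / (p - 1) ^ 2)`; `sing m`: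
the singular series `2 C₂ ∏_{p ∣ m, p > 2} (p - 1) / (p - 2)`.

Method: exponential sums over the correctly nested words by a stack machine, a harmonic function of the stack and a
cancellation between the two ways to return to a stack in two steps (starting files, `Pool.Agent.N625.DY`). New here: a
frequency `θ` at which the exponential sum over the multiples `h v` is large differs little from a fraction with a small
denominator except at `O(log k)` of the digits, for all `h ≤ k ^ J` (`Pool.Agent.U847.TG`, `Pool.Agent.U847.TI`). The passage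
from such a description of the large frequencies to the representations in windows is from the starting files
(`Pool.Agent.N625.PT.t_windows`).
-/

set_option autoImplicit false

namespace Pool.Agent.Results.MP_61161c_nt.NestedWordMultiples

open Finset Pool.Agent.H560R3.GB

/-- The number of the `p` such that `p` and `p' = m - p` are odd primes, `p < p'` and `p' - p ≤ H`. -/
def N (m H : ℕ) : ℕ :=
  ((range m).filter (fun p => p.Prime ∧ p ≠ 2 ∧ (m - p).Prime ∧ m - p ≠ 2 ∧ p < m - p ∧ m - p ≤ p + H)).card

/-- For every `H` with `m / log ^ A m ≤ H ≤ m` there are distinct odd primes `p < p'` with `p + p' = m` and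
`p' - p ≤ H`, and the number of these pairs is `sing m * H / (2 log ^ 2 m)` up to a relative error of at
most `ε`. -/
def Holds (ε : ℝ) (A m : ℕ) : Prop :=
  ∀ H : ℕ, H ≤ m → (m : ℝ) / Real.log m ^ A ≤ H →
    (∃ p p' : ℕ, p.Prime ∧ p'.Prime ∧ p ≠ 2 ∧ p' ≠ 2 ∧ p < p' ∧ p + p' = m ∧ p' - p ≤ H) ∧
    |(N m H : ℝ) - sing m * H / (2 * Real.log m ^ 2)| ≤ ε * (sing m * H / (2 * Real.log m ^ 2))

/-- `P` is a set of pairs of an opening digit and a closing digit which match each other, `E` is a set of neutral
digits; the digits are smaller than `b`, no digit plays two of the three roles, and there is at least one pair.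
(An opening digit can match several closing digits, and conversely.) -/
structure Alphabet (b : ℕ) (P : Finset (ℕ × ℕ)) (E : Finset ℕ) : Prop where
  lt : ∀ p ∈ P, p.1 < b ∧ p.2 < b
  ne : ∀ p ∈ P, ∀ p' ∈ P, p.1 ≠ p'.2
  neutral : ∀ a ∈ E, a < b ∧ ∀ p ∈ P, a ≠ p.1 ∧ a ≠ p.2
  nonempty : P.Nonempty

/-- The correctly nested words: the empty word; a neutral digit followed by a correctly nested word; and `o u c w`,
where `u` and `w` are correctly nested words and the opening digit `o` matches the closing digit `c`. -/
inductive Balanced (P : Finset (ℕ × ℕ)) (E : Finset ℕ) : List ℕ → Prop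
  | nil : Balanced P E []
  | neutral (a : ℕ) (w : List ℕ) : a ∈ E → Balanced P E w → Balanced P E (a :: w)
  | pair (o c : ℕ) (u w : List ℕ) : (o, c) ∈ P → Balanced P E u → Balanced P E w → Balanced P E (o :: (u ++ c :: w))

open Classical in
/-- The integers `v < b ^ k` whose `k` digits in base `b`, from the most significant to the least significant one (the
digit number `i`, `0 ≤ i < k`, from the left is `v / b ^ (k - 1 - i) % b`), form a correctly nested word. -/
noncomputable def brackets (b : ℕ) (P : Finset (ℕ × ℕ)) (E : Finset ℕ) (k : ℕ) : Finset ℕ :=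
  (range (b ^ k)).filter fun v => Balanced P E ((List.range k).map fun i => v / b ^ (k - 1 - i) % b)

lemma bal_iff (P : Finset (ℕ × ℕ)) (E : Finset ℕ) (w : List ℕ) : Balanced P E w ↔ Pool.Agent.N625.DY.Balanced P E w := by
  constructor
  · intro h
    induction h with
    | nil => exact .nil
    | neutral a w h1 _ ih => exact .neutral a w h1 ih
    | pair o c u w h1 _ _ ih1 ih2 => exact .pair o c u w h1 ih1 ih2
  · intro h
    induction h with
    | nil => exact .nil
    | neutral a w h1 _ ih => exact .neutral a w h1 ih
    | pair o c u w h1 _ _ ih1 ih2 => exact .pair o c u w h1 ih1 ih2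

lemma brackets_eq (b : ℕ) (P : Finset (ℕ × ℕ)) (E : Finset ℕ) (k : ℕ) :
    brackets b P E k = Pool.Agent.N625.DY.brackets b P E k := by
  classical
  unfold brackets Pool.Agent.N625.DY.brackets Pool.Agent.N625.DY.word
  ext v
  rw [mem_filter, mem_filter, bal_iff]

open Classical in
/-- **Sums of two distinct odd primes: all the multiples of the integers given by nested words.** Let the matching pairs `P`
of digits and the neutral digits `E` in base `b`, and `κ ≠ 0`, `B`, `J`, `A`, `W`, `U` and `ε > 0` be fixed, let `k` be large
and let `c` be an integer with `|c| ≤ B b ^ k`. Then for all the integers `v` whose `k` digits form a correctly nested word,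
with the exception of a proportion of at most `1 / k ^ U` of them, ALL the even positive integers `m = h q` with
`1 ≤ h ≤ k ^ J` and with `q` at a distance of at most `k ^ W` from `c + κ v` are sums of two distinct odd primes `p < p'`, even
with `p' - p ≤ H` for every `H` with `m / log ^ A m ≤ H ≤ m`, and the number of these representations is as predicted, up to
a relative error of at most `ε`. -/
theorem result (b : ℕ) (P : Finset (ℕ × ℕ)) (E : Finset ℕ) (hA : Alphabet b P E) (κ : ℤ) (hκ : κ ≠ 0)
    (B J A W U : ℕ) (ε : ℝ) (hε : 0 < ε) :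
    ∃ k₀ : ℕ, ∀ k : ℕ, k₀ ≤ k → ∀ c : ℤ, |c| ≤ B * (b : ℤ) ^ k →
      (((brackets b P E k).filter fun v : ℕ => ¬ ∀ q : ℤ, |q - (c + κ * v)| ≤ (k : ℤ) ^ W →
        ∀ h : ℕ, 1 ≤ h → h ≤ k ^ J → 0 < (h : ℤ) * q → Even ((h : ℤ) * q) → Holds ε A ((h : ℤ) * q).toNat).card : ℝ) ≤
        (brackets b P E k).card / (k : ℝ) ^ U := by
  have hA' : Pool.Agent.N625.DY.Alphabet b P E := ⟨hA.lt, hA.ne, hA.neutral, hA.nonempty⟩
  obtain ⟨m₀, hm⟩ := MP_61161c_nt.DigitPermutations.holds_of A ε hε
  obtain ⟨k₀, hmain⟩ := Pool.Agent.N625.PT.t_windows
    (Pool.Agent.U847.TI.br_tcls hA' κ hκ) B J W (A + 1) U m₀ (min ε (1 / 2) / 2)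
    (div_pos (lt_min hε (by norm_num)) (by norm_num)) (Holds ε A) hm
  refine ⟨k₀, fun k hk c hc => ?_⟩
  simp only [brackets_eq]
  refine Pool.Agent.U847.BT.br_num hA' _ (fun p hp => hmain k hk p hp c hc _ ?_)
  intro v hv
  push Not at hv
  obtain ⟨q, hq, h, hh1, hh2, hpos, hev, hbad⟩ := hv
  refine ⟨h, hh1, hh2, q - (c + κ * v), hq, ?_⟩
  have e : (h : ℤ) * (c + (q - (c + κ * v)) + κ * v) = h * q := by ring
  rw [e]
  exact ⟨hpos, hev.two_dvd, hbad⟩

end Pool.Agent.Results.MP_61161c_nt.NestedWordMultiples
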