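import Pool.Agent.Results.MP_61161c_nt.DigitPermutations
import Pool.Agent.U837.RP.Mul

/-!
# Sums of two distinct and almost equal odd primes, for all even integers near the values of ALL small integer polynomials in
# several variables

For almost all points `n = (n_1, ..., n_k)` of the cube `[1, x] ^ k`, ALL the positive even integers `m` within `log ^ W x` of the
values `F(n)` of ALL the nonconstant integer polynomials `F` in `k` variables of degree at most `D` with coefficients of
absolute value at most `log ^ W x` are sums of two distinct odd primes, even of two primes at a distance of at most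
`H`, for every `H` with `m / log ^ A m ≤ H ≤ m`, and the number of these representations is the predicted one. Examples: `m`
near `n_1 n_2 ⋯ n_k`, near `n_1 ^ 4 + n_2 ^ 4` and near `n_1 ^ 2 - 4 n_2 n_3`, simultaneously. The values form thin sets:
there are `x ^ k` points and the values have the size `x ^ deg F`.

Definitions used from `Pool.Agent.H560R3.GB` (starting files): `sing m`: the singular series
`2 C₂ ∏_{p ∣ m, p > 2} (p - 1) / (p - 2)`, where `C₂ = ∏_{p > 2} (1 - 1 / (p - 1) ^ 2)`.

Method: for a polynomial `F` of degree `d ≥ 1` there is a direction `a ∈ {0, ..., D} ^ k` (Combinatorial Nullstellensatz) such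
that `F` restricted to the lines `t ↦ n + t a` is a polynomial of degree `d` in `t` with a small leading coefficient, but with
arbitrarily large other coefficients. By the inverse theorem for Weyl sums (`H373R2/NB/Weyl`) the values of such a
polynomial at consecutive integers have a minimal additive energy of high order, uniformly in the other coefficients
(`Pool.Agent.U837.RP.poly_near`), and the theorem of the starting files on thin families of this kind
(`R459.near_even`) applies on every line. The number of the small polynomials is only a power of the logarithm.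
-/

set_option autoImplicit false

namespace Pool.Agent.Results.MP_61161c_nt.SeveralVariables

open Finset
open Pool.Agent.H560R3.GB (sing)

/-- The number of the `p` such that `p` and `p' = m - p` are odd primes, `p < p'` and `p' - p ≤ H`. -/
def N (m H : ℕ) : ℕ :=
  ((range m).filter (fun p => p.Prime ∧ p ≠ 2 ∧ (m - p).Prime ∧ m - p ≠ 2 ∧ p < m - p ∧ m - p ≤ p + H)).card

/-- For every `H` with `m / log ^ A m ≤ H ≤ m` there are distinct odd primes `p < p'` with `p + p' = m` and
`p' - p ≤ H`, and the number of these pairs is `sing m * H / (2 log ^ 2 m)` up to a relative error of at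
most `ε`. -/
def Holds (ε : ℝ) (A m : ℕ) : Prop :=
  ∀ H : ℕ, H ≤ m → (m : ℝ) / Real.log m ^ A ≤ H →
    (∃ p p' : ℕ, p.Prime ∧ p'.Prime ∧ p ≠ 2 ∧ p' ≠ 2 ∧ p < p' ∧ p + p' = m ∧ p' - p ≤ H) ∧
    |(N m H : ℝ) - sing m * H / (2 * Real.log m ^ 2)| ≤ ε * (sing m * H / (2 * Real.log m ^ 2))

lemma holds_of (A : ℕ) (ε : ℝ) (hε : 0 < ε) : ∃ m₀ : ℕ, ∀ m : ℕ, m₀ ≤ m → 2 ∣ m →
    Pool.Agent.W93.PG.WinP (min ε (1 / 2) / 2) (A + 1) m → Holds ε A m := MP_61161c_nt.DigitPermutations.holds_of A ε hε

/-- `F` is not constant, has a total degree of at most `D`, and its coefficients have an absolute value of at most `r`. -/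
def Small {k : ℕ} (F : MvPolynomial (Fin k) ℤ) (D : ℕ) (r : ℝ) : Prop :=
  1 ≤ F.totalDegree ∧ F.totalDegree ≤ D ∧ ∀ s, |((F.coeff s : ℤ) : ℝ)| ≤ r

/-- The value of `F` at the point `n`. -/
noncomputable def value {k : ℕ} (F : MvPolynomial (Fin k) ℤ) (n : Fin k → ℕ) : ℤ :=
  MvPolynomial.eval (fun i => (n i : ℤ)) F

open Classical in
/-- The number of the points `n` of `{1, ..., x} ^ k` for which `Holds` fails for some even integer `m > 0` with
`|m - F(n)| ≤ log ^ W x` and some `F` with `Small F D (log ^ W x)`. -/
noncomputable def exceptions (k D : ℕ) (ε : ℝ) (A : ℕ) (W x : ℕ) : ℕ :=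
  ((Fintype.piFinset (fun _ : Fin k => Icc 1 x)).filter (fun n : Fin k → ℕ => ∃ F : MvPolynomial (Fin k) ℤ,
    Small F D (Real.log x ^ W) ∧ ∃ m : ℕ, 0 < m ∧ Even m ∧ |(m : ℝ) - value F n| ≤ Real.log x ^ W ∧ ¬ Holds ε A m)).card

/-- Let `k`, `D`, `A`, `W`, `U` and `ε > 0` be fixed, and let `x` be large. For all but at most `x ^ k / log ^ U x` of the points `n` of
`{1, ..., x} ^ k`, and for ALL the nonconstant integer polynomials `F` in `k` variables of total degree at most `D` with
coefficients of absolute value at most `log ^ W x`, ALL the even integers `m > 0` with `|m - F(n)| ≤ log ^ W x` are sums of two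
distinct odd primes `p < p'`, even with `p' - p ≤ H` for every `H` with `m / log ^ A m ≤ H ≤ m`, and the number of
these representations is `sing m * H / (2 log ^ 2 m)` up to a relative error of at most `ε`. -/
theorem result (k D A W U : ℕ) (ε : ℝ) (hε : 0 < ε) :
    ∃ x₀ : ℕ, ∀ x : ℕ, x₀ ≤ x → (exceptions k D ε A W x : ℝ) ≤ (x : ℝ) ^ k / Real.log x ^ U := by
  classical
  obtain ⟨m₀, hm₀⟩ := holds_of A ε hε
  obtain ⟨x₀, h0⟩ := Pool.Agent.U837.RP.multi_values k D (A + 1) W U m₀ (min ε (1 / 2) / 2)
    (div_pos (lt_min hε (by norm_num)) (by norm_num)) (Holds ε A) (fun m h1 h2 h3 => hm₀ m h1 h2 h3)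
  refine ⟨x₀, fun x hx => ?_⟩
  unfold exceptions
  refine h0 x hx _ ?_
  intro n hn
  rw [mem_filter, Fintype.mem_piFinset] at hn
  obtain ⟨h1, F, ⟨F1, F2, F3⟩, m, m1, m2, m3, m4⟩ := hn
  exact ⟨h1, F, F1, F2, F3, m, m1, m2, m3, m4⟩

end Pool.Agent.Results.MP_61161c_nt.SeveralVariables
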